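import Pool.Agent.K3h48.PS.Final

/-!
# Hereditary p-spaces that are continuous images of compact connected ordered spaces

Let `L` be a compact connected linearly ordered space, `Y` a Hausdorff space and `f : L → Y` a
continuous surjection.  If every subspace of `Y` is a p-space in the sense of Arhangel'skii, then
`Y` is metrizable.  This answers Q1 of MP_250825_gt in the affirmative.

Proof.  (1) If a subspace `S` of `Y` is a p-space and `z i` in `S`, `b i` in the closure of `S` but
not in `S` (`i ∈ I`) are given, then `I` is a countable union of sets `I n` such that every `c ∈ S`
has for every `n` a neighbourhood that contains `z i` and `b i` for no `i ∈ I n`.  Here one uses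
the extension `β S → Y` of the inclusion, under which the points of `S` have only one preimage.

(2) Hence there are no disjoint families `Z = {z i}`, `B = {b i}` indexed by an uncountable set such
that every `z i` is in the closure of the complement of `Z`, every `b i` in the closure of the
complement of `B`, and for every uncountable set of indices the pairs `(z i, b i)` cluster at some
`c`: by (1), applied to the complements of `B` and `Z`, the point `c` would be both in `Z` and `B`.

(3) An uncountable family of closed intervals of `L` such that every point is in only countably
many of them clusters at a point of `L`.  If `f` has different values at the end points of each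
interval, then there are, by the intermediate value theorem and Zorn's lemma, uncountably many
intervals of the family that contain points `x`, `y` whose images are different limits of countable
sets `Q`, and all these images and sets can be chosen disjoint.  By (2) this is impossible.

(4) If for every countable `D ⊆ L` there is an interval `[u, v]` disjoint from `D` and a point `w`
in it with `f u ≠ f w ≠ f v`, a recursion of length `ω₁` gives triples `u < w < v` such that
`[u, v]` contains no point of the earlier triples.  If some point `e` is in uncountably many of
these intervals, the halves `[u, w]` or `[w, v]` that do not contain `e` are disjoint; otherwise all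
halves `[u, w]` can be used for (3).  So this case is impossible.

(5) So there is a countable `D`, containing the end points of `L`, such that `f u = f v` whenever
`[u, v]` is disjoint from `D`.  It follows that the images of the intervals with end points in `D`
are a countable network of compact sets of `Y`, and `Y` is metrizable.
-/

open Set

namespace Pool.Agent.Results.MP_250825_gt.HereditaryPSpacesMetrizable

universe u v

/-- `X` is a p-space in the sense of Arhangel'skii: there are families `γ n` (`n : ℕ`) of open
subsets of the Stone-Čech compactification `β X`, each of which covers `X`, such that for every
`x ∈ X` the intersection of the stars `St(x, γ n)`, the unions of the members of `γ n` that contain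
`x`, is contained in `X`. -/
def IsPSpace (X : Type u) [TopologicalSpace X] : Prop :=
  ∃ γ : ℕ → Set (Set (StoneCech X)),
    (∀ n, ∀ G ∈ γ n, IsOpen G) ∧
    (∀ n, ∀ x : X, ∃ G ∈ γ n, stoneCechUnit x ∈ G) ∧
    ∀ x : X, (⋂ n, ⋃₀ {G | G ∈ γ n ∧ stoneCechUnit x ∈ G}) ⊆
      range (stoneCechUnit : X → StoneCech X)

/-- A continuous image of a compact connected linearly ordered space all of whose subspaces are
p-spaces is metrizable. -/
theorem result (L : Type u) [LinearOrder L] [TopologicalSpace L] [OrderTopology L]
    [CompactSpace L] [ConnectedSpace L]
    (Y : Type v) [TopologicalSpace Y] [T2Space Y]
    (f : L → Y) (hf : Continuous f) (hs : Function.Surjective f)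
    (hY : ∀ S : Set Y, IsPSpace S) :
    TopologicalSpace.MetrizableSpace Y :=
  K3h48.PS.final L Y f hf hs hY

end Pool.Agent.Results.MP_250825_gt.HereditaryPSpacesMetrizable
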